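import Pool.Agent.H86.UhfG

set_option autoImplicit false

namespace Pool.Agent.Results.MP_0dad12_an.UhfCancel

open Cardinal Pool.Agent.H86.Uhf

/-- `B` is the infinite tensor product of the algebras `M_{n j}`: it is nonzero and is generated,
as a C*-algebra, by pairwise commuting unital copies of the `M_{n j}` -/
def IsUHF (B : Type) [CStarAlgebra B] {J : Type} (n : J → ℕ) : Prop :=
  Nontrivial B ∧ ∃ ι : ∀ j, Matrix (Fin (n j)) (Fin (n j)) ℂ →⋆ₐ[ℂ] B,
    (∀ i j, i ≠ j → ∀ m m', Commute (ι i m) (ι j m')) ∧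
    Dense (Algebra.adjoin ℂ (⋃ j, Set.range (ι j)) : Set B)

/-- `B` is a C*-tensor product of `A` and `C`: it is nonzero and is generated, as a C*-algebra,
by commuting unital images of `A` and `C` -/
def IsTensor (B A C : Type) [CStarAlgebra B] [CStarAlgebra A] [CStarAlgebra C] : Prop :=
  Nontrivial B ∧ ∃ (α : A →⋆ₐ[ℂ] B) (γ : C →⋆ₐ[ℂ] B), (∀ a c, Commute (α a) (γ c)) ∧
    Dense (Algebra.adjoin ℂ (Set.range α ∪ Set.range γ) : Set B)

/-- there is a unital embedding of `C` into `B` -/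
def Embeds (C B : Type) [CStarAlgebra C] [CStarAlgebra B] : Prop :=
  ∃ φ : C →⋆ₐ[ℂ] B, Function.Injective φ

theorem IsUHF.sys {B : Type} [CStarAlgebra B] {J : Type} {n : J → ℕ} (hn : ∀ j, 0 < n j)
    (h : IsUHF B n) : Nontrivial B ∧ ∃ ι : ∀ j, Matrix (Fin (n j)) (Fin (n j)) ℂ →⋆ₐ[ℂ] B,
      Sys ι ∧ Dense (L ι Set.univ : Set B) := by
  obtain ⟨h1, ι, h2, h3⟩ := h
  exact ⟨h1, ι, ⟨hn, h2⟩, by rwa [L, Set.biUnion_univ]⟩

theorem range_le {A B : Type} [CStarAlgebra A] [CStarAlgebra B] {J : Type} {n : J → ℕ}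
    {ι : ∀ j, Matrix (Fin (n j)) (Fin (n j)) ℂ →⋆ₐ[ℂ] A} (hd : Dense (L ι Set.univ : Set A))
    (α : A →⋆ₐ[ℂ] B) (Z : Subalgebra ℂ B) (h : ∀ j m, α (ι j m) ∈ Z) :
    Set.range α ⊆ Z.topologicalClosure := by
  rintro _ ⟨a, rfl⟩
  exact map_mem_closure (AddMonoidHomClass.continuous_of_bound α 1 fun x => by
    simpa using NonUnitalStarAlgHom.norm_apply_le α x) (hd a)
    (L_le (Z := Z.comap α.toAlgHom) fun j _ m => h j m)

theorem result (I K K' : Type) (m : I → ℕ) (hm : ∀ i, 0 < m i) (n : ℕ) (hn : 0 < n)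
    (hK : #K < #K') [Infinite K']
    (A B C C' : Type) [CStarAlgebra A] [CStarAlgebra B] [CStarAlgebra C] [CStarAlgebra C']
    (hA : IsUHF A m) (hC : IsUHF C fun _ : K => n) (hC' : IsUHF C' fun _ : K' => n)
    (hB : IsTensor B A C) (h : Embeds C' B) : Embeds C' A := by
  obtain ⟨_, ι, a1, a2⟩ := hA.sys hm
  obtain ⟨_, ψ, c1, c2⟩ := hC.sys fun _ => hn
  obtain ⟨_, ψ', d1, d2⟩ := hC'.sys fun _ => hn
  obtain ⟨_, α, γ, b1, b2⟩ := hB
  obtain ⟨φ, -⟩ := h
  suffices h1 : ∀ p : ℕ, p.Prime → p ∣ n → #K' ≤ #{i | p ∣ m i} by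
    obtain ⟨F, f1, f2⟩ := Gen.blocks m hn h1
    choose e he using fun k => a1.stage (F k)
    choose θ hθ using fun k => Gen.divide (he k).mu (f1 k) _ (he k).mem
    exact univ_prop (ψ := θ) d1 ⟨d1.pos, fun k l hkl x y =>
      a1.L_comm (Finset.disjoint_coe.mpr (f2 k l hkl)) (hθ k x) (hθ l y)⟩ d2
  intro p hp hpn
  by_contra h1
  let N : I ⊕ K → ℕ := Sum.elim m fun _ => n
  let ρ : ∀ j, Matrix (Fin (N j)) (Fin (N j)) ℂ →⋆ₐ[ℂ] B :=
    Sum.rec (fun i => α.comp (ι i)) fun k => γ.comp (ψ k)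
  have r1 : Sys ρ := ⟨Sum.rec hm fun _ => hn, by
    rintro (i | i) (j | j) hij m m'
    · exact (a1.comm i j (fun e => hij (congrArg _ e)) m m').map α
    · exact b1 _ _
    · exact (b1 _ _).symm
    · exact (c1.comm i j (fun e => hij (congrArg _ e)) m m').map γ⟩
  have r2 : Dense (L ρ Set.univ : Set B) := (b2.mono (Algebra.adjoin_le
    (S := (L ρ Set.univ).topologicalClosure) (Set.union_subset
      (range_le a2 α _ fun i m => mem_L (ι := ρ) (j := .inl i) (Set.mem_univ _) m)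
      (range_le c2 γ _ fun k m => mem_L (ι := ρ) (j := .inr k) (Set.mem_univ _) m)))).of_closure
  have h2 : #{j | p ∣ N j} < #K' := by
    refine ((mk_le_mk_of_subset (t := Sum.inl '' {i | p ∣ m i} ∪ Set.range Sum.inr) ?_).trans
      ((mk_union_le _ _).trans (add_le_add mk_image_le mk_range_le))).trans_lt
      (add_lt_of_lt (aleph0_le_mk K') (not_le.mp h1) hK)
    rintro (i | k) hi
    · exact Or.inl ⟨i, hi, rfl⟩
    · exact Or.inr ⟨k, rfl⟩
  by_cases h3 : {j | p ∣ N j}.Finite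
  · refine Gen.small r1 r2 hp hpn h3 fun s => ?_
    obtain ⟨F, hF⟩ := Infinite.exists_subset_card_eq K' s
    have h4 := d1.stage F
    rw [Finset.prod_const, hF] at h4
    obtain ⟨e, he⟩ := h4
    exact ⟨_, he.mu.map φ⟩
  · exact Gen.big r1 r2 (aleph0_le_mk_iff.mpr (Set.infinite_coe_iff.mpr h3)) h2 hp hpn le_rfl
      (fun β s => φ (ψ' β (Matrix.single s.1 s.2 1))) (fun β => (mu_hom hn (ψ' β)).map φ)
      fun β β' h4 s t => (d1.comm β β' h4 _ _).map φ

end Pool.Agent.Results.MP_0dad12_an.UhfCancel
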